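import Pool.Agent.MWGX.StmtsB

/-!
# Row MC2 of squad MWGX (MP_23468a_al)

The proof is the one of row MC2 of MWGQ (helper62), with a gap and the covering lemma CVG.
-/

set_option autoImplicit false

namespace Pool.Agent.MWGX.H12

open Pool.Agent.Helper14_MV Pool.Agent.Helper2_MV
open Pool.Agent.MWK (pre)
open Pool.Agent.MWF (gaml)
open Pool.Agent.MWGN (nn Nm WC WT Tau Ns nl sg)
open Pool.Agent.MWGQ (pw Gn E0 A0 P0 bd kr krl Rs)
open Pool.Agent.MWGR (X It Kaba F1 Dm Ec Es Ea Al0 Rh FE)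

theorem count_pw (k c : ℕ) (u : List ℕ) : (pw k u).count c = k * u.count c := by
  induction k with
  | zero => simp [pw]
  | succ k ih =>
    have h : pw (k + 1) u = u ++ pw k u := by simp [pw, List.replicate_succ]
    rw [h, List.count_append, ih]
    ring

theorem ghc_g (g u : ℕ → List ℕ) (N i : ℕ) (hi : i < N) :
    ∃ a b, ghc g u N = a ++ (g i ++ b) := by
  have h1 : i ∈ List.range N := List.mem_range.2 hi
  obtain ⟨l1, l2, h2⟩ := List.append_of_mem h1
  refine ⟨l1.flatMap (fun i => u i ++ g i) ++ u i, l2.flatMap (fun i => u i ++ g i) ++ u N, ?_⟩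
  unfold ghc
  rw [h2, List.flatMap_append, List.flatMap_cons]
  simp [List.append_assoc]

theorem ghc_u (g u : ℕ → List ℕ) (N i : ℕ) (hi : i ≤ N) :
    ∃ a b, ghc g u N = a ++ (u i ++ b) := by
  rcases Nat.lt_or_eq_of_le hi with h0 | rfl
  · have h1 : i ∈ List.range N := List.mem_range.2 h0
    obtain ⟨l1, l2, h2⟩ := List.append_of_mem h1
    refine ⟨l1.flatMap (fun i => u i ++ g i), g i ++ (l2.flatMap (fun i => u i ++ g i) ++ u N), ?_⟩
    unfold ghc
    rw [h2, List.flatMap_append, List.flatMap_cons]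
    simp [List.append_assoc]
  · refine ⟨(List.range i).flatMap (fun i => u i ++ g i), [], ?_⟩
    unfold ghc
    simp

theorem mem_ghc {g u : ℕ → List ℕ} {N c : ℕ} (h : c ∈ ghc g u N) :
    (∃ i < N, c ∈ g i) ∨ ∃ i ≤ N, c ∈ u i := by
  unfold ghc at h
  rw [List.mem_append, List.mem_flatMap] at h
  rcases h with ⟨i, hi, h⟩ | h
  · rw [List.mem_range] at hi
    rcases List.mem_append.1 h with h | h
    · exact Or.inr ⟨i, by omega, h⟩
    · exact Or.inl ⟨i, hi, h⟩
  · exact Or.inr ⟨N, le_refl _, h⟩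

theorem mc2 (hF : Fg1Stmt) (hC : CvgStmt) (hP : MpgStmt) (hH : HzgStmt) : Mc2Stmt := by
  intro n δ hn τ m hτ f p q hb hc ⟨h0, h1⟩
  obtain ⟨g, u, H0, hform, hpin, hu, hgg, H1, H2, H3, hH0⟩ := hF n hn τ m hτ f false
  obtain ⟨hgm', hgm1⟩ := hgg rfl
  set E : List ℕ := gL n 1 (f 5) (f 0) (f 1) with hE
  set G : List ℕ := ghc g u (m + 2) with hG
  set w : List ℕ := p ++ (w0 n τ m true false).flatMap f ++ q with hw
  have hw' : w = p ++ (E ++ (f 2 ++ (f 0 ++ (G ++ (f 1 ++ (H0 ++ q)))))) := by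
    rw [hw, hform true]
    simp [List.append_assoc, hE]
  have hgH : ∀ i < m + 2, ∃ A B, H0 ++ q = A ++ (g i ++ B) := by
    intro i hi
    obtain ⟨A, B, hAB⟩ := hpin i hi
    refine ⟨A, B ++ q, ?_⟩
    rw [hAB]
    simp [List.append_assoc]
  have hgm : ∀ i < m + 2, ∀ c ∈ g i, c ∈ H0 ++ q := by
    intro i hi c hc'
    obtain ⟨A, B, hAB⟩ := hgH i hi
    rw [hAB]
    simp [hc']
  have hgG : ∀ i < m + 2, ∀ c ∈ g i, c ∈ G := by
    intro i hi c hc'
    obtain ⟨a, b, hab⟩ := ghc_g g u (m + 2) i hi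
    rw [hG, hab]
    simp [hc']
  have huG : ∀ i ≤ m + 2, ∀ c ∈ u i, 2 ≤ G.count c := by
    intro i hi c hc'
    obtain ⟨a, b, hab⟩ := ghc_u g u (m + 2) i hi
    have h2 := hu i hi c hc'
    rw [hG, hab]
    simp only [List.count_append]
    omega
  have hGw : ∀ c ∈ G, 2 ≤ w.count c := by
    intro c hc'
    have h3 : 1 ≤ G.count c := List.count_pos_iff.2 hc'
    rcases mem_ghc hc' with ⟨i, hi, h2⟩ | ⟨i, hi, h2⟩
    · have h4 : 1 ≤ (H0 ++ q).count c := List.count_pos_iff.2 (hgm i hi c h2)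
      rw [hw']
      simp only [List.count_append] at h4 ⊢
      omega
    · have h4 := huG i hi c h2
      rw [hw']
      simp only [List.count_append] at h4 ⊢
      omega
  have hAE : ∀ d ∈ f 0, d ∈ E := by
    intro d hd
    rw [hE]
    unfold gL
    simp [hd]
  have hBE : ∀ d ∈ f 1, d ∈ E := by
    intro d hd
    rw [hE]
    unfold gL
    simp [hd]
  have hEw : ∀ d ∈ E, 2 ≤ w.count d := by
    intro d hd
    have h2 : E.count d = (pw n (f 5)).count d + (f 0).count d + (pw (n + 1) (f 5)).count d +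
        (f 1).count d + (pw n (f 5)).count d := by
      rw [hE]
      unfold gL
      simp only [List.count_append, count_pw]
      ring
    have h3 : w.count d = p.count d + (E.count d + ((f 2).count d + ((f 0).count d +
        (G.count d + ((f 1).count d + (H0 ++ q).count d))))) := by
      rw [hw']
      simp only [List.count_append]
    have h4 : 1 ≤ E.count d := List.count_pos_iff.2 hd
    rw [count_pw, count_pw] at h2
    rcases Nat.eq_zero_or_pos ((f 5).count d) with h5 | h5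
    · rw [h5] at h2
      omega
    · have h6 : n * 1 ≤ n * (f 5).count d := Nat.mul_le_mul_left _ h5
      omega
  have hK0 : K0 n δ τ m w := hb.1
  obtain ⟨hFa, hHb, hL, hCC⟩ := hP N1 m m (by omega) p E (f 2) (f 0) G (f 1) (H0 ++ q) w
    hw' hGw hEw hAE hBE hK0.c1 h0 h1
  -- the order of the two lights in `G`
  have hz : N1.L m ∈ pre G (N1.L (m + 1)) := by
    have h2 : nn w (N1.L m) (N1.L (m + 1)) = 1 := hc.2
    unfold nn at h2
    obtain ⟨a1, a2, a3, a4, _, _, _⟩ := hL m (by omega)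
    obtain ⟨_, _, _, _, _, _, a5⟩ := hL (m + 1) (by omega)
    rw [a5] at h2
    simp only [List.count_append, List.count_eq_zero_of_not_mem a1,
      List.count_eq_zero_of_not_mem a2, List.count_eq_zero_of_not_mem a3,
      List.count_eq_zero_of_not_mem a4] at h2
    exact List.count_pos_iff.1 (by omega)
  have hne : ∀ i < m + 2, ¬ (N1.L m ∈ g i ∧ N1.L (m + 1) ∈ g i) := by
    rintro i hi ⟨h2, h3⟩
    obtain ⟨A, B, hAB⟩ := hgH i hi
    obtain ⟨h4, h5⟩ := hH m p E (f 2) (f 0) G (f 1) (H0 ++ q) A (g i) B w hw' hGw hEw hAE hBE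
      hK0.c1 hK0.c2 h0 h1 hAB h2 h3
    exact h5 (hgG i hi _ h4)
  have hcov := hC N1 m m (le_refl _) (by omega) p E (f 2) (f 0) G (f 1) (H0 ++ q) w
    hw' hGw hEw hAE hBE hK0.c1 h0 h1 (m + 2) g u hG hgm huG (fun _ => hne) (fun _ => hz)
  have hz1 : N1.L m ∈ f (N1.L (m + 1)) := by
    obtain ⟨k, hk, h2, h3, h4⟩ := hcov m (by omega)
    have e : k = m := by omega
    rw [e, hgm'] at h2
    exact h2
  have hz2 : N1.L (m + 1) ∈ f (N1.L m) := by
    obtain ⟨k, hk, h2, h3, h4⟩ := hcov (m + 1) (by omega)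
    have e : k = m + 1 := by omega
    rw [e, hgm1] at h2
    exact h2
  -- all `z` are in front of the first light of level 2
  have hx : nn w (N1.L m) ((N2 m).L 0) = w.count (N1.L m) := hK0.c2.xl 0 (by omega)
  have hy : nn w (N1.L (m + 1)) ((N2 m).L 0) = 1 := hK0.c2.yl 0 (by omega)
  set μ := (N2 m).L 0 with hμ
  set A : List ℕ := p ++ (E ++ (f 2 ++ (f 0 ++ (G ++ (f 1 ++
    (H1 ++ (f (N1.L m) ++ H2))))))) with hA
  have hwA : w = A ++ (f (N1.L (m + 1)) ++ (H3 ++ q)) := by
    rw [hw', hA, hH0]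
    simp [List.append_assoc]
  have hμA : μ ∉ A := by
    intro h2
    unfold nn at hx
    rw [hwA, MWK.pre_append_mem h2] at hx
    have h3 : (pre A μ).count (N1.L m) ≤ A.count (N1.L m) :=
      (MWK.pre_prefix A μ).sublist.count_le _
    have h4 : 1 ≤ (f (N1.L (m + 1))).count (N1.L m) := List.count_pos_iff.2 hz1
    simp only [List.count_append] at hx
    omega
  have h2 : 1 ≤ G.count (N1.L (m + 1)) := by
    obtain ⟨_, _, _, _, _, a5, _⟩ := hL (m + 1) (by omega)
    omega
  have h3 : 1 ≤ (f (N1.L m)).count (N1.L (m + 1)) := List.count_pos_iff.2 hz2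
  unfold nn at hy
  rw [hwA, MWK.pre_append hμA] at hy
  simp only [hA, List.count_append] at hy
  omega

end Pool.Agent.MWGX.H12
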